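import Pool.Agent.N290.RN.Stm
import Pool.Agent.N678.RJ.Loc
import Pool.Agent.W732.Cor.Asm
import Pool.Agent.W540.Cor.Ker
import Pool.Agent.W563.Cor.Part
import Pool.Agent.W688.Cor.OpS
import Pool.Agent.W688.Cor.Base
import Pool.Agent.W177.Cor.Disc
import Pool.Agent.W597.Cor.Ball
import Pool.Agent.W721.Cor.Mv

/-!
# Project RN, WHT (helper221): Whitney localisation along a geodesic, from the library
-/

set_option autoImplicit false

open Metric Set Filter Topology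

namespace Pool.Agent.N221.RN

open Pool.Agent.TH310.Cor (Solv SolvL HB)
open Pool.Agent.N678.RJ.Loc
open Pool.Agent.N290.RJ (E N nm B ip)
open Pool.Agent.N290.RN (mvE)
open Pool.Agent.W732.Cor (V mv)

theorem t_op : Pool.Agent.W732.Cor.S_op := Pool.Agent.W688.Cor.op_of_ker Pool.Agent.W540.Cor.main

theorem t_asm : Pool.Agent.W732.Cor.S_asm :=
  Pool.Agent.W732.Cor.asm t_op Pool.Agent.W563.Cor.main Pool.Agent.W688.Cor.base

theorem t_ball : Pool.Agent.W732.Cor.S_ball :=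
  Pool.Agent.W597.Cor.Ball.main (Pool.Agent.W177.Cor.main t_asm)

theorem t_mv : Pool.Agent.W732.Cor.S_mv := Pool.Agent.W721.Cor.Mv.main

variable {d : ℕ}

theorem Ph_add (z q : V (d + 1)) : Ph (z + q) = Ph z + Ph q := by
  unfold Ph
  ext <;> simp

theorem Ph_smul (c : ℂ) (z : V (d + 1)) : Ph (c • z) = c • Ph z := by
  unfold Ph
  ext <;> simp

theorem ip_Ph (z : V (d + 1)) (w : E d) : ip (Ph z) w = inner ℂ (Ps w) z := by
  rw [PiLp.inner_apply, Fin.sum_univ_succ]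
  unfold ip Ph Ps
  simp only [RCLike.inner_apply]
  rfl

theorem Ph_mv (p : E d) (a : ℂ) (z : V (d + 1)) : Ph (mv (Ps p) a z) = mvE p a (Ph z) := by
  unfold mv mvE
  rw [Ph_smul, Ph_add, Ph_smul, Ph_smul, Ph_sub, Ph_smul, Ph_Ps, ip_Ph]

theorem WHT (d : ℕ) : Pool.Agent.N290.RN.WHT d := by
  intro p hp ι M F δ hδ hFd hFb hlow hloc
  have hP : ‖(Ps p : V (d + 1))‖ = 1 := by
    have h1 := N_Ph (Ps p : V (d + 1))
    rw [Ph_Ps, hp] at h1
    have h2 := norm_nonneg (Ps p : V (d + 1))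
    nlinarith
  have hball : ∀ z : V (d + 1), z ∈ ball (0 : V (d + 1)) 1 → Ph z ∈ B d := by
    intro z hz
    rw [mem_ball_zero_iff] at hz
    rw [Pool.Agent.N290.RJ.mem_B_nm, nm_Ph]
    exact hz
  have hS : Solv (fun (i : ι) (j : Fin M) (z : V (d + 1)) => F i j (Ph z)) := by
    refine Pool.Agent.TH310.Cor.whit1 t_mv t_ball hP ?_ hδ
      (fun a z hz => hlow a _ (hball z hz)) ?_
    · intro i j
      exact ⟨(hFd i j).comp Ph_diff.differentiableOn hball, fun z hz => hFb i j _ (hball z hz)⟩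
    · intro q hq hpq
      obtain ⟨C, ρ, hρ, hg⟩ := hloc (Ph q) (by rw [N_Ph, hq, one_pow]) (by rw [ip_Ph]; exact hpq)
      refine ⟨C, ρ, hρ, fun x => ?_⟩
      obtain ⟨g, hg1, hg2⟩ := hg x.1 x.2 (mem_ball_zero_iff.1 x.2.2)
      have hm : ∀ z ∈ ball (0 : V (d + 1)) 1 ∩ ball q ρ, Ph z ∈ B d ∧ nm (Ph z - Ph q) < ρ := by
        rintro z ⟨hz1, hz2⟩
        refine ⟨hball z hz1, ?_⟩
        rw [← Ph_sub, nm_Ph, ← dist_eq_norm]
        exact hz2
      refine ⟨fun j z => g j (Ph z), fun j => (hg1 j).comp Ph_diff.differentiableOn hm, ?_, ?_⟩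
      · intro j z hz
        exact (hg2 _ (hm z hz).1 (hm z hz).2).1 j
      · intro z hz
        have h1 := (hg2 _ (hm z hz).1 (hm z hz).2).2
        simp only [← Ph_mv] at h1
        exact h1
  obtain ⟨C, hC⟩ := hS
  have hmem : ∀ w ∈ B d, Ps w ∈ ball (0 : V (d + 1)) 1 := by
    intro w hw
    rw [mem_ball_zero_iff, ← nm_Ph, Ph_Ps]
    exact Pool.Agent.N290.RJ.mem_B_nm.1 hw
  refine ⟨C, fun a => ?_⟩
  obtain ⟨g, h1, h2, h3⟩ := hC a
  refine ⟨fun j w => g j (Ps w), fun j => (h1 j).comp Ps_diff.differentiableOn hmem, ?_⟩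
  intro w hw
  refine ⟨fun j => h2 j _ (hmem w hw), ?_⟩
  have := h3 _ (hmem w hw)
  simp only [Ph_Ps] at this
  exact this

end Pool.Agent.N221.RN
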